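import Pool.Agent.TH498.MT.S3

/-!
The number of semistable elliptic curves over `ℚ` with a given torsion group and conductor at most
`N`, whose discriminants are at most a power of `N`.
-/

set_option autoImplicit false

namespace Pool.Agent.Results.MP_d8bd92_nt.KubertConductorCount

open Finset Filter Topology

/-- the product of the distinct primes dividing `Δ(W)` (the conductor if `gcd(c₄, Δ) = 1`) -/
def conductor (W : WeierstrassCurve ℤ) : ℕ := ∏ p ∈ W.Δ.natAbs.primeFactors, p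

/-- the ten groups of order at least five in Mazur's list of the torsion subgroups of the elliptic
curves over `ℚ` -/
inductive Torsion
  | Z5 | Z6 | Z7 | Z8 | Z9 | Z10 | Z12 | Z2Z4 | Z2Z6 | Z2Z8

/-- Kubert's families `y² + a₁(t) x y + a₃(t) y = x³ + a₂(t) x²` (Tate normal forms, with the
denominators cleared) -/
def curve : Torsion → ℚ → WeierstrassCurve ℚ
  | .Z5, t => ⟨1 - t, -t, -t, 0, 0⟩
  | .Z6, t => ⟨1 - t, -(t ^ 2 + t), -(t ^ 2 + t), 0, 0⟩
  | .Z7, t => ⟨1 + t - t ^ 2, -(t ^ 2 * (t - 1)), -(t ^ 2 * (t - 1)), 0, 0⟩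
  | .Z8, t => ⟨t - (2 * t - 1) * (t - 1), -((2 * t - 1) * (t - 1) * t ^ 2),
      -((2 * t - 1) * (t - 1) * t ^ 3), 0, 0⟩
  | .Z9, t => ⟨1 - t ^ 2 * (t - 1), -(t ^ 2 * (t - 1) * (t ^ 2 - t + 1)),
      -(t ^ 2 * (t - 1) * (t ^ 2 - t + 1)), 0, 0⟩
  | .Z10, t => ⟨-t ^ 2 + 3 * t - 1 - t * (2 * t - 1) * (t - 1), -(t ^ 3 * (2 * t - 1) * (t - 1)),
      -(t ^ 3 * (2 * t - 1) * (t - 1) * (-t ^ 2 + 3 * t - 1)), 0, 0⟩
  | .Z12, t => ⟨(t - 1) ^ 3 + t * (2 * t - 1) * (3 * t ^ 2 - 3 * t + 1),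
      -(t * (2 * t - 1) * (3 * t ^ 2 - 3 * t + 1) * (2 * t ^ 2 - 2 * t + 1) * (t - 1) ^ 2),
      -(t * (2 * t - 1) * (3 * t ^ 2 - 3 * t + 1) * (2 * t ^ 2 - 2 * t + 1) * (t - 1) ^ 5), 0, 0⟩
  | .Z2Z4, t => ⟨4, 1 - t ^ 2, 4 * (1 - t ^ 2), 0, 0⟩
  | .Z2Z6, t => ⟨t ^ 2 + 2 * t - 19, 2 * (t - 5) * (t - 1) ^ 2,
      2 * (t - 5) * (t - 1) ^ 2 * (t ^ 2 - 9), 0, 0⟩
  | .Z2Z8, t => ⟨t * (2 * t + 1) * (2 * t ^ 2 - 1) - (t + 1) * (2 * t ^ 2 + 2 * t + 1),
      -((t + 1) * (2 * t ^ 2 + 2 * t + 1) * (t * (2 * t + 1)) ^ 2),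
      -((t + 1) * (2 * t ^ 2 + 2 * t + 1) * (t * (2 * t + 1)) ^ 3 * (2 * t ^ 2 - 1)), 0, 0⟩

/-- `W` is isomorphic over `ℚ` to a member of Kubert's family for `T` -/
def KubertMember (T : Torsion) (W : WeierstrassCurve ℤ) : Prop :=
  ∃ (t : ℚ) (C : WeierstrassCurve.VariableChange ℚ), C • curve T t = W.map (Int.castRingHom ℚ)

/-- the number `k` such that `c₄` and `c₆` of Kubert's family are forms of degrees `4k` and `6k`;
the modular curve of `T` has `2k + 2` cusps -/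
def level : Torsion → ℕ
  | .Z5 => 1 | .Z6 => 1 | .Z7 => 2 | .Z8 => 2 | .Z9 => 3 | .Z10 => 3 | .Z12 => 4
  | .Z2Z4 => 1 | .Z2Z6 => 2 | .Z2Z8 => 4

/-- the number of rational cusps plus twice the number of classes of irrational cusps of the
modular curve of `T`: `2k + 2`, except for `ℤ/7` and `ℤ/9` (classes of three cusps) -/
def weight : Torsion → ℕ
  | .Z5 => 4 | .Z6 => 4 | .Z7 => 5 | .Z8 => 6 | .Z9 => 7 | .Z10 => 8 | .Z12 => 10
  | .Z2Z4 => 4 | .Z2Z6 => 6 | .Z2Z8 => 10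

/-- the invariants `(c₄, c₆)` of the integral Weierstrass curves with `Δ ≠ 0` and `gcd(c₄, Δ) = 1`
(the minimal models of the semistable elliptic curves over `ℚ`) in Kubert's family for `T` with
conductor at most `N` and `|Δ| ≤ N ^ κ` -/
def Curves (T : Torsion) (κ : ℝ) (N : ℕ) : Set (ℤ × ℤ) :=
  {q | ∃ W : WeierstrassCurve ℤ, W.Δ ≠ 0 ∧ IsCoprime W.c₄ W.Δ ∧ KubertMember T W ∧
    q = (W.c₄, W.c₆) ∧ conductor W ≤ N ∧ |(W.Δ : ℝ)| ≤ (N : ℝ) ^ κ}

private theorem weight_eq (T : Torsion) (h7 : T ≠ .Z7) (h9 : T ≠ .Z9) :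
    2 / (weight T : ℝ) = 1 / ((level T : ℝ) + 1) := by
  cases T <;> first
    | exact absurd rfl h7
    | exact absurd rfl h9
    | norm_num [weight, level]

/-- Let `T` be one of the ten torsion groups of order at least five and `k = level T`.
(1) There is `c > 0` such that for all large `N` and `κ ≥ 6k / (k + 1)` there are at least
`c N ^ (1 / (k + 1))` isomorphism classes of semistable elliptic curves over `ℚ` in Kubert's family
for `T` with conductor at most `N` and `|Δ| ≤ N ^ κ`.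
(2) For all `κ` and `ε > 0` their number is finite and at most `C N ^ (2 / weight T + ε)`.
(3) If `T` is not `ℤ/7` or `ℤ/9`, then for every `κ ≥ 6k / (k + 1)` their number is
`N ^ (1 / (k + 1) + o(1))`. -/
theorem result (T : Torsion) :
    (∃ (c : ℝ) (N₀ : ℕ), 0 < c ∧ ∀ (N : ℕ) (κ : ℝ), N₀ ≤ N →
      6 * (level T : ℝ) / (level T + 1) ≤ κ →
      c * (N : ℝ) ^ (1 / ((level T : ℝ) + 1)) ≤ ((Curves T κ N).ncard : ℝ)) ∧
    (∀ κ ε : ℝ, 0 < ε → ∃ C : ℝ, ∀ N : ℕ, 1 ≤ N → (Curves T κ N).Finite ∧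
      ((Curves T κ N).ncard : ℝ) ≤ C * (N : ℝ) ^ (2 / (weight T : ℝ) + ε)) ∧
    (T ≠ .Z7 → T ≠ .Z9 → ∀ κ : ℝ, 6 * (level T : ℝ) / (level T + 1) ≤ κ →
      Tendsto (fun N : ℕ => Real.log ((Curves T κ N).ncard : ℝ) / Real.log N) atTop
        (𝓝 (1 / ((level T : ℝ) + 1)))) := by
  have main : ∀ (a1 a2 a3 : Polynomial ℤ) (k m w L : ℕ) (f : Fin m → Polynomial ℤ)
      (n : Fin m → ℕ),
      Pool.Agent.TH498.HF.FamB (27 * Pool.Agent.TH498.KB.c4p a1 a2 a3)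
        (54 * Pool.Agent.TH498.KB.c6p a1 a2 a3) k m f n →
      Pool.Agent.TH498.HF.Rev (27 * Pool.Agent.TH498.KB.c4p a1 a2 a3)
        (54 * Pool.Agent.TH498.KB.c6p a1 a2 a3) k m f n →
      Pool.Agent.TH498.MT.Adapt a1 a2 a3 k → Pool.Agent.TH498.MT.Two m f n →
      Pool.Agent.TH498.KB.Fam (27 * Pool.Agent.TH498.KB.c4p a1 a2 a3)
        (54 * Pool.Agent.TH498.KB.c6p a1 a2 a3) k w L →
      ∑ i, n i = 2 * k + 2 → level T = k → L + 2 * w = weight T →
      (∀ t, curve T t = Pool.Agent.TH498.KB.crv a1 a2 a3 t) →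
      (∃ (c : ℝ) (N₀ : ℕ), 0 < c ∧ ∀ (N : ℕ) (κ : ℝ), N₀ ≤ N →
        6 * (level T : ℝ) / (level T + 1) ≤ κ →
        c * (N : ℝ) ^ (1 / ((level T : ℝ) + 1)) ≤ ((Curves T κ N).ncard : ℝ)) ∧
      (∀ κ ε : ℝ, 0 < ε → ∃ C : ℝ, ∀ N : ℕ, 1 ≤ N → (Curves T κ N).Finite ∧
        ((Curves T κ N).ncard : ℝ) ≤ C * (N : ℝ) ^ (2 / (weight T : ℝ) + ε)) := by
    intro a1 a2 a3 k m w L f n hF hR hA h2 hFam hq hk hw hV
    have hup : ∀ κ ε : ℝ, 0 < ε → ∃ C : ℝ, ∀ N : ℕ, 1 ≤ N → (Curves T κ N).Finite ∧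
        ((Curves T κ N).ncard : ℝ) ≤ C * (N : ℝ) ^ (2 / (weight T : ℝ) + ε) := by
      intro κ ε hε
      obtain ⟨C, hC, h⟩ := Pool.Agent.TH498.MT.up_semi a1 a2 a3 k m f n hF h2 w L hFam
        (max κ 0) ε (le_max_right _ _) hε
      refine ⟨C, fun N hN => ?_⟩
      have hN1 : (1 : ℝ) ≤ N := by exact_mod_cast hN
      have hw' : (L : ℝ) + 2 * w = weight T := by exact_mod_cast hw
      rw [← hw']
      refine Pool.Agent.TH498.HF.fin_of_bound _ _ fun s hs => h N hN s ?_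
      intro p hp
      obtain ⟨W, q1, q2, ⟨t, D, hD⟩, q3, q4, q5⟩ := hs hp
      exact ⟨W, q1, q2, ⟨t, D, by rw [← hV t]; exact hD⟩, q3, q4,
        q5.trans (Real.rpow_le_rpow_of_exponent_le hN1 (le_max_left _ _))⟩
    refine ⟨?_, hup⟩
    obtain ⟨c, N0, hc, h⟩ := Pool.Agent.TH498.MT.low_semi a1 a2 a3 k m f n hF hR hA
    refine ⟨c, max N0 1, hc, ?_⟩
    intro N κ hN hκ
    have hN1 : 1 ≤ N := (le_max_right _ _).trans hN
    have hN1' : (1 : ℝ) ≤ N := by exact_mod_cast hN1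
    obtain ⟨C0, hCN⟩ := hup κ 1 one_pos
    have hfin := (hCN N hN1).1
    have hq' : ((∑ i, n i : ℕ) : ℝ) = 2 * ((k : ℝ) + 1) := by rw [hq]; push_cast; ring
    have hk0 : (0 : ℝ) < (k : ℝ) + 1 := by positivity
    have h1 := h N ((le_max_left _ _).trans hN) (Curves T κ N) hfin ?_
    · rw [hq'] at h1
      rw [hk]
      have e : 2 / (2 * ((k : ℝ) + 1)) = 1 / ((k : ℝ) + 1) := by field_simp
      rwa [e] at h1
    · intro W q1 q2 q3 q4 q5
      obtain ⟨t, D, hD⟩ := q3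
      refine ⟨W, q1, q2, ⟨t, D, by rw [hV t]; exact hD⟩, rfl, q4, q5.trans ?_⟩
      refine Real.rpow_le_rpow_of_exponent_le hN1' ?_
      rw [hq']
      rw [hk] at hκ
      have e : 12 * (k : ℝ) / (2 * ((k : ℝ) + 1)) = 6 * (k : ℝ) / (k + 1) := by
        field_simp
        ring
      rw [e]
      exact hκ
  have key : (∃ (c : ℝ) (N₀ : ℕ), 0 < c ∧ ∀ (N : ℕ) (κ : ℝ), N₀ ≤ N →
        6 * (level T : ℝ) / (level T + 1) ≤ κ →
        c * (N : ℝ) ^ (1 / ((level T : ℝ) + 1)) ≤ ((Curves T κ N).ncard : ℝ)) ∧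
      (∀ κ ε : ℝ, 0 < ε → ∃ C : ℝ, ∀ N : ℕ, 1 ≤ N → (Curves T κ N).Finite ∧
        ((Curves T κ N).ncard : ℝ) ≤ C * (N : ℝ) ^ (2 / (weight T : ℝ) + ε)) := by
    cases T
    · exact main _ _ _ _ _ _ _ _ _ Pool.Agent.TH498.HF.famB_z5 Pool.Agent.TH498.HF.rev_z5
        Pool.Agent.TH498.MT.ad_z5 Pool.Agent.TH498.MT.two_z5 Pool.Agent.TH498.KB.fam_z5
        (by decide) rfl (by decide) (fun t => by
          simp [curve, Pool.Agent.TH498.KB.crv, Pool.Agent.TH498.KB.a1_z5,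
            Pool.Agent.TH498.KB.a2_z5, Pool.Agent.TH498.KB.a3_z5])
    · exact main _ _ _ _ _ _ _ _ _ Pool.Agent.TH498.HF.famB_z6 Pool.Agent.TH498.HF.rev_z6
        Pool.Agent.TH498.MT.ad_z6 Pool.Agent.TH498.MT.three_z6.two Pool.Agent.TH498.KB.fam_z6
        (by decide) rfl (by decide) (fun t => by
          simp [curve, Pool.Agent.TH498.KB.crv, Pool.Agent.TH498.KB.a1_z6,
            Pool.Agent.TH498.KB.a2_z6, Pool.Agent.TH498.KB.a3_z6])
    · exact main _ _ _ _ _ _ _ _ _ Pool.Agent.TH498.HF.famB_z7 Pool.Agent.TH498.HF.rev_z7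
        Pool.Agent.TH498.MT.ad_z7 Pool.Agent.TH498.MT.three_z7.two Pool.Agent.TH498.KB.fam_z7
        (by decide) rfl (by decide) (fun t => by
          simp [curve, Pool.Agent.TH498.KB.crv, Pool.Agent.TH498.KB.a1_z7,
            Pool.Agent.TH498.KB.a2_z7, Pool.Agent.TH498.KB.a3_z7])
    · exact main _ _ _ _ _ _ _ _ _ Pool.Agent.TH498.HF.famB_z8 Pool.Agent.TH498.HF.rev_z8
        Pool.Agent.TH498.MT.ad_z8 Pool.Agent.TH498.MT.three_z8.two Pool.Agent.TH498.KB.fam_z8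
        (by decide) rfl (by decide) (fun t => by
          simp [curve, Pool.Agent.TH498.KB.crv, Pool.Agent.TH498.KB.a1_z8,
            Pool.Agent.TH498.KB.a2_z8, Pool.Agent.TH498.KB.a3_z8])
    · exact main _ _ _ _ _ _ _ _ _ Pool.Agent.TH498.HF.famB_z9 Pool.Agent.TH498.HF.rev_z9
        Pool.Agent.TH498.MT.ad_z9 Pool.Agent.TH498.MT.three_z9.two Pool.Agent.TH498.KB.fam_z9
        (by decide) rfl (by decide) (fun t => by
          simp [curve, Pool.Agent.TH498.KB.crv, Pool.Agent.TH498.KB.a1_z9,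
            Pool.Agent.TH498.KB.a2_z9, Pool.Agent.TH498.KB.a3_z9])
    · exact main _ _ _ _ _ _ _ _ _ Pool.Agent.TH498.HF.famB_z10 Pool.Agent.TH498.HF.rev_z10
        Pool.Agent.TH498.MT.ad_z10 Pool.Agent.TH498.MT.three_z10.two Pool.Agent.TH498.KB.fam_z10
        (by decide) rfl (by decide) (fun t => by
          simp [curve, Pool.Agent.TH498.KB.crv, Pool.Agent.TH498.KB.a1_z10,
            Pool.Agent.TH498.KB.a2_z10, Pool.Agent.TH498.KB.a3_z10])
    · exact main _ _ _ _ _ _ _ _ _ Pool.Agent.TH498.HF.famB_z12 Pool.Agent.TH498.HF.rev_z12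
        Pool.Agent.TH498.MT.ad_z12 Pool.Agent.TH498.MT.three_z12.two Pool.Agent.TH498.KB.fam_z12
        (by decide) rfl (by decide) (fun t => by
          simp [curve, Pool.Agent.TH498.KB.crv, Pool.Agent.TH498.KB.a1_z12,
            Pool.Agent.TH498.KB.a2_z12, Pool.Agent.TH498.KB.a3_z12])
    · exact main _ _ _ _ _ _ _ _ _ Pool.Agent.TH498.HF.famB_z2x4 Pool.Agent.TH498.HF.rev_z2x4
        Pool.Agent.TH498.MT.ad_z2x4 Pool.Agent.TH498.MT.three_z2x4.two Pool.Agent.TH498.KB.fam_z2x4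
        (by decide) rfl (by decide) (fun t => by
          simp [curve, Pool.Agent.TH498.KB.crv, Pool.Agent.TH498.KB.a1_z2x4,
            Pool.Agent.TH498.KB.a2_z2x4, Pool.Agent.TH498.KB.a3_z2x4])
    · exact main _ _ _ _ _ _ _ _ _ Pool.Agent.TH498.HF.famB_z2x6 Pool.Agent.TH498.HF.rev_z2x6
        Pool.Agent.TH498.MT.ad_z2x6 Pool.Agent.TH498.MT.three_z2x6.two Pool.Agent.TH498.KB.fam_z2x6
        (by decide) rfl (by decide) (fun t => by
          simp [curve, Pool.Agent.TH498.KB.crv, Pool.Agent.TH498.KB.a1_z2x6,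
            Pool.Agent.TH498.KB.a2_z2x6, Pool.Agent.TH498.KB.a3_z2x6])
    · exact main _ _ _ _ _ _ _ _ _ Pool.Agent.TH498.HF.famB_z2x8 Pool.Agent.TH498.HF.rev_z2x8
        Pool.Agent.TH498.MT.ad_z2x8 Pool.Agent.TH498.MT.three_z2x8.two Pool.Agent.TH498.KB.fam_z2x8
        (by decide) rfl (by decide) (fun t => by
          simp [curve, Pool.Agent.TH498.KB.crv, Pool.Agent.TH498.KB.a1_z2x8,
            Pool.Agent.TH498.KB.a2_z2x8, Pool.Agent.TH498.KB.a3_z2x8])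
  refine ⟨key.1, key.2, ?_⟩
  intro h7 h9 κ hκ
  have hwk := weight_eq T h7 h9
  obtain ⟨c, N0, hc, hlow⟩ := key.1
  rw [hwk] at key
  set x : ℝ := 1 / ((level T : ℝ) + 1) with hx
  rw [tendsto_order]
  constructor
  · intro a ha
    have hev : ∀ᶠ B : ℝ in atTop, (-Real.log c) / (x - a) < Real.log B :=
      Real.tendsto_log_atTop.eventually_gt_atTop _
    have hev' := tendsto_natCast_atTop_atTop.eventually hev
    filter_upwards [hev', eventually_ge_atTop N0, eventually_gt_atTop 1] with N h1 h2 h3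
    have hN1 : (1 : ℝ) < N := by exact_mod_cast h3
    have hNpos : (0 : ℝ) < N := by linarith
    have hlogN : 0 < Real.log N := Real.log_pos hN1
    have h4 := Real.log_le_log (by positivity) (hlow N κ h2 hκ)
    rw [Real.log_mul hc.ne' (by positivity), Real.log_rpow hNpos] at h4
    rw [lt_div_iff₀ hlogN]
    rw [div_lt_iff₀ (by linarith)] at h1
    linarith
  · intro a ha
    obtain ⟨C', hC'⟩ := key.2 κ ((a - x) / 2) (by linarith)
    have hev : ∀ᶠ B : ℝ in atTop, Real.log (max C' 1) / ((a - x) / 2) < Real.log B :=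
      Real.tendsto_log_atTop.eventually_gt_atTop _
    have hev' := tendsto_natCast_atTop_atTop.eventually hev
    filter_upwards [hev', eventually_ge_atTop N0, eventually_gt_atTop 1] with N h1 h2 h3
    have hN1 : (1 : ℝ) < N := by exact_mod_cast h3
    have hNpos : (0 : ℝ) < N := by linarith
    have hlogN : 0 < Real.log N := Real.log_pos hN1
    have hpos : 0 < ((Curves T κ N).ncard : ℝ) :=
      lt_of_lt_of_le (by positivity) (hlow N κ h2 hκ)
    have h4 : ((Curves T κ N).ncard : ℝ) ≤ max C' 1 * (N : ℝ) ^ (x + (a - x) / 2) :=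
      ((hC' N h3.le).2).trans (mul_le_mul_of_nonneg_right (le_max_left _ _) (by positivity))
    have h5 := Real.log_le_log hpos h4
    have hmax : 0 < max C' 1 := lt_of_lt_of_le one_pos (le_max_right _ _)
    rw [Real.log_mul hmax.ne' (by positivity), Real.log_rpow hNpos] at h5
    rw [div_lt_iff₀ hlogN]
    rw [div_lt_iff₀ (by linarith)] at h1
    have h6 : a = x + 2 * ((a - x) / 2) := by ring
    rw [h6]
    linarith

end Pool.Agent.Results.MP_d8bd92_nt.KubertConductorCount
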