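import Pool.Agent.TH498.KB.Tors

/-!
Szpiro's conjecture for the semistable curves in one-parameter families of elliptic curves with
multiplicative singular fibres, in particular in the universal families of the elliptic curves over
`ℚ` with a torsion subgroup of order at least five: bounds for the number of curves that violate the
inequality.
-/

set_option autoImplicit false

namespace Pool.Agent.Results.MP_d8bd92_nt.KubertSemistable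

open Finset Polynomial

/-- the product of the distinct primes dividing `Δ(W)` (the conductor if `gcd(c₄, Δ) = 1`) -/
def conductor (W : WeierstrassCurve ℤ) : ℕ := ∏ p ∈ W.Δ.natAbs.primeFactors, p

/-- the invariants `(c₄, c₆)` of the integral Weierstrass curves with `Δ ≠ 0` and `gcd(c₄, Δ) = 1`
(the minimal models of the semistable elliptic curves over `ℚ`) having the property `M`,
naive height `max (|c₄|³, c₆²) ≤ X⁶` and `c₀ N ^ κ < |Δ|` -/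
def Exceptional (M : WeierstrassCurve ℤ → Prop) (κ c₀ : ℝ) (X : ℕ) : Set (ℤ × ℤ) :=
  {q | ∃ W : WeierstrassCurve ℤ, W.Δ ≠ 0 ∧ IsCoprime W.c₄ W.Δ ∧ M W ∧
    q = (W.c₄, W.c₆) ∧ |W.c₄| ^ 3 ≤ (X : ℤ) ^ 6 ∧ W.c₆ ^ 2 ≤ (X : ℤ) ^ 6 ∧
    c₀ * (conductor W : ℝ) ^ κ < |(W.Δ : ℝ)|}

/-- `W` (that is `y² = x³ - 27c₄ x - 54c₆`) is isomorphic over `ℚ` to `y² = x³ - A(t) x - B(t)` for
some `t ∈ ℚ` -/
def Member (A B : ℤ[X]) (W : WeierstrassCurve ℤ) : Prop :=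
  ∃ t u : ℚ, u ≠ 0 ∧ 27 * (W.c₄ : ℚ) = u ^ 4 * aeval t A ∧ 54 * (W.c₆ : ℚ) = u ^ 6 * aeval t B

/-- `A` and `B`, viewed as binary forms of degrees `4k` and `6k`, have no common zero on the
projective line (so that all singular fibres of `y² = x³ - A(t) x - B(t)` are multiplicative), and
the form `4A³ - 27B²` of degree `12k` is divisible by a form without multiple factors which is the
product of `w` forms `g_j` of degrees `n_j ≥ 2` and of `L` linear forms `h_i` (a constant `h_i` is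
the linear form that vanishes at infinity); `w + L ≥ 1` and `L ≠ 1` -/
def IsFamily (A B : ℤ[X]) (k w L : ℕ) : Prop :=
  1 ≤ k ∧ A.natDegree ≤ 4 * k ∧ B.natDegree ≤ 6 * k ∧
  (A.natDegree = 4 * k ∨ B.natDegree = 6 * k) ∧
  IsCoprime (A.map (Int.castRingHom ℚ)) (B.map (Int.castRingHom ℚ)) ∧ L ≠ 1 ∧ 1 ≤ w + L ∧
  ∃ (g : Fin w → ℤ[X]) (n : Fin w → ℕ) (h : Fin L → ℤ[X]) (G : ℤ[X]),
    (∀ j, (g j).natDegree ≤ n j ∧ 2 ≤ n j) ∧ (∀ i, (h i).natDegree ≤ 1) ∧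
    Squarefree (((∏ j, g j) * ∏ i, h i).map (Int.castRingHom ℚ)) ∧
    ∑ j, n j + L ≤ ((∏ j, g j) * ∏ i, h i).natDegree + 1 ∧
    ((∏ j, g j) * ∏ i, h i) * G = 4 * A ^ 3 - 27 * B ^ 2 ∧
    G.natDegree + (∑ j, n j + L) ≤ 12 * k

/-- the ten groups of order at least five in Mazur's list of the torsion subgroups of the elliptic
curves over `ℚ` -/
inductive Torsion
  | Z5 | Z6 | Z7 | Z8 | Z9 | Z10 | Z12 | Z2Z4 | Z2Z6 | Z2Z8

/-- Kubert's families `y² + a₁(t) x y + a₃(t) y = x³ + a₂(t) x²` (Tate normal forms, with the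
denominators cleared) -/
def curve : Torsion → ℚ → WeierstrassCurve ℚ
  | .Z5, t => ⟨1 - t, -t, -t, 0, 0⟩
  | .Z6, t => ⟨1 - t, -(t ^ 2 + t), -(t ^ 2 + t), 0, 0⟩
  | .Z7, t => ⟨1 + t - t ^ 2, -(t ^ 2 * (t - 1)), -(t ^ 2 * (t - 1)), 0, 0⟩
  | .Z8, t => ⟨t - (2 * t - 1) * (t - 1), -((2 * t - 1) * (t - 1) * t ^ 2),
      -((2 * t - 1) * (t - 1) * t ^ 3), 0, 0⟩
  | .Z9, t => ⟨1 - t ^ 2 * (t - 1), -(t ^ 2 * (t - 1) * (t ^ 2 - t + 1)),
      -(t ^ 2 * (t - 1) * (t ^ 2 - t + 1)), 0, 0⟩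
  | .Z10, t => ⟨-t ^ 2 + 3 * t - 1 - t * (2 * t - 1) * (t - 1), -(t ^ 3 * (2 * t - 1) * (t - 1)),
      -(t ^ 3 * (2 * t - 1) * (t - 1) * (-t ^ 2 + 3 * t - 1)), 0, 0⟩
  | .Z12, t => ⟨(t - 1) ^ 3 + t * (2 * t - 1) * (3 * t ^ 2 - 3 * t + 1),
      -(t * (2 * t - 1) * (3 * t ^ 2 - 3 * t + 1) * (2 * t ^ 2 - 2 * t + 1) * (t - 1) ^ 2),
      -(t * (2 * t - 1) * (3 * t ^ 2 - 3 * t + 1) * (2 * t ^ 2 - 2 * t + 1) * (t - 1) ^ 5), 0, 0⟩
  | .Z2Z4, t => ⟨4, 1 - t ^ 2, 4 * (1 - t ^ 2), 0, 0⟩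
  | .Z2Z6, t => ⟨t ^ 2 + 2 * t - 19, 2 * (t - 5) * (t - 1) ^ 2,
      2 * (t - 5) * (t - 1) ^ 2 * (t ^ 2 - 9), 0, 0⟩
  | .Z2Z8, t => ⟨t * (2 * t + 1) * (2 * t ^ 2 - 1) - (t + 1) * (2 * t ^ 2 + 2 * t + 1),
      -((t + 1) * (2 * t ^ 2 + 2 * t + 1) * (t * (2 * t + 1)) ^ 2),
      -((t + 1) * (2 * t ^ 2 + 2 * t + 1) * (t * (2 * t + 1)) ^ 3 * (2 * t ^ 2 - 1)), 0, 0⟩

/-- `W` is isomorphic over `ℚ` to a member of Kubert's family for `T` -/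
def KubertMember (T : Torsion) (W : WeierstrassCurve ℤ) : Prop :=
  ∃ (t : ℚ) (C : WeierstrassCurve.VariableChange ℚ), C • curve T t = W.map (Int.castRingHom ℚ)

/-- the number of rational cusps plus twice the number of classes of irrational cusps of the
modular curve of `T` -/
def weight : Torsion → ℕ
  | .Z5 => 4 | .Z6 => 4 | .Z7 => 5 | .Z8 => 6 | .Z9 => 7 | .Z10 => 8 | .Z12 => 10
  | .Z2Z4 => 4 | .Z2Z6 => 6 | .Z2Z8 => 10

/-- (1) Let `(A, B)` be a family as in `IsFamily A B k w L`. For all `κ, c₀, ε > 0` there is `C` such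
that for every `X ≥ 1` at most `C X ^ (12 / (κ (L + 2w)) + ε)` isomorphism classes of semistable
elliptic curves over `ℚ` of the family `y² = x³ - A(t) x - B(t)` of naive height at most `X⁶` have
`c₀ N ^ κ < |Δ|`.

(2) Let `T` be one of the ten torsion groups of order at least five. For all `κ, c₀, ε > 0` there is
`C` such that for every `X ≥ 1` at most `C X ^ (12 / (κ weight T) + ε)` isomorphism classes of
semistable elliptic curves over `ℚ` in Kubert's family for `T` of naive height at most `X⁶` have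
`c₀ N ^ κ < |Δ|`. -/
theorem result :
    (∀ (A B : ℤ[X]) (k w L : ℕ), IsFamily A B k w L → ∀ κ c₀ ε : ℝ, 0 < κ → 0 < c₀ → 0 < ε →
      ∃ C : ℝ, ∀ X : ℕ, 1 ≤ X →
        (Exceptional (Member A B) κ c₀ X).Finite ∧
        ((Exceptional (Member A B) κ c₀ X).ncard : ℝ) ≤
          C * (X : ℝ) ^ (12 / (κ * (L + 2 * w)) + ε)) ∧
    (∀ (T : Torsion) (κ c₀ ε : ℝ), 0 < κ → 0 < c₀ → 0 < ε →
      ∃ C : ℝ, ∀ X : ℕ, 1 ≤ X →
        (Exceptional (KubertMember T) κ c₀ X).Finite ∧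
        ((Exceptional (KubertMember T) κ c₀ X).ncard : ℝ) ≤
          C * (X : ℝ) ^ (12 / (κ * (weight T : ℝ)) + ε)) := by
  have hrad : ∀ (W : WeierstrassCurve ℤ) (κ c₀ : ℝ) (X : ℕ), 0 < κ → 0 < c₀ →
      |W.c₄| ^ 3 ≤ (X : ℤ) ^ 6 → W.c₆ ^ 2 ≤ (X : ℤ) ^ 6 →
      c₀ * (conductor W : ℝ) ^ κ < |(W.Δ : ℝ)| →
      c₀ * (Pool.Agent.TH498.KB.rad5 W.Δ : ℝ) ^ κ ≤ (X : ℝ) ^ 6 := by
    intro W κ c₀ X hκ hc₀ h4 h6 h
    have e1 : Pool.Agent.TH498.KB.rad5 W.Δ ≤ conductor W := by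
      unfold Pool.Agent.TH498.KB.rad5 conductor
      exact Finset.prod_le_prod_of_subset_of_one_le' (filter_subset _ _) fun i hi _ =>
        (Nat.prime_of_mem_primeFactors hi).one_le
    have e2 : (Pool.Agent.TH498.KB.rad5 W.Δ : ℝ) ^ κ ≤ (conductor W : ℝ) ^ κ :=
      Real.rpow_le_rpow (Nat.cast_nonneg _) (by exact_mod_cast e1) hκ.le
    have hrel : 1728 * (W.Δ : ℝ) = (W.c₄ : ℝ) ^ 3 - (W.c₆ : ℝ) ^ 2 := by
      exact_mod_cast W.c_relation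
    have h4' : |(W.c₄ : ℝ)| ^ 3 ≤ (X : ℝ) ^ 6 := by exact_mod_cast h4
    have h6' : (W.c₆ : ℝ) ^ 2 ≤ (X : ℝ) ^ 6 := by exact_mod_cast h6
    have e3 : 1728 * |(W.Δ : ℝ)| ≤ |(W.c₄ : ℝ)| ^ 3 + (W.c₆ : ℝ) ^ 2 := by
      calc 1728 * |(W.Δ : ℝ)| = |1728 * (W.Δ : ℝ)| := by rw [abs_mul]; norm_num
        _ = |(W.c₄ : ℝ) ^ 3 - (W.c₆ : ℝ) ^ 2| := by rw [hrel]
        _ ≤ |(W.c₄ : ℝ) ^ 3| + |(W.c₆ : ℝ) ^ 2| := abs_sub _ _
        _ = _ := by rw [abs_pow, abs_of_nonneg (sq_nonneg (W.c₆ : ℝ))]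
    have e4 : c₀ * (Pool.Agent.TH498.KB.rad5 W.Δ : ℝ) ^ κ ≤ c₀ * (conductor W : ℝ) ^ κ :=
      mul_le_mul_of_nonneg_left e2 hc₀.le
    have e5 : 0 ≤ |(W.Δ : ℝ)| := abs_nonneg _
    have e6 : (0 : ℝ) ≤ (X : ℝ) ^ 6 := by positivity
    linarith
  refine ⟨?_, ?_⟩
  · intro A B k w L hF κ c₀ ε hκ hc₀ hε
    obtain ⟨h1, h2, h3, h4, h5, h6, h7, h8⟩ := hF
    obtain ⟨C, -, h⟩ := Pool.Agent.TH498.KB.inv_count A B k w L
      ⟨h1, h2, h3, h4, h5, h6, h7, h8⟩ κ c₀ ε hκ hc₀ hε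
    refine ⟨C, fun X hX => h X hX _ ?_⟩
    rintro q ⟨W, q1, q2, ⟨t, u, hu, ha, hb⟩, q4, q5, q6, q7⟩
    refine ⟨W, q1, Pool.Agent.TH498.KB.prim_of_coprime W q2, ⟨t, u, hu, ?_, ?_⟩, q4, q5, q6,
      hrad W κ c₀ X hκ hc₀ q5 q6 q7⟩
    · push_cast
      rw [ha, aeval_def, eval_map]; rfl
    · push_cast
      rw [hb, aeval_def, eval_map]; rfl
  · intro T κ c₀ ε hκ hc₀ hε
    have main : ∀ (a1 a2 a3 : ℤ[X]) (k w L : ℕ),
        Pool.Agent.TH498.KB.Fam (27 * Pool.Agent.TH498.KB.c4p a1 a2 a3)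
          (54 * Pool.Agent.TH498.KB.c6p a1 a2 a3) k w L → L + 2 * w = weight T →
        (∀ t, curve T t = Pool.Agent.TH498.KB.crv a1 a2 a3 t) →
        ∃ C : ℝ, ∀ X : ℕ, 1 ≤ X →
          (Exceptional (KubertMember T) κ c₀ X).Finite ∧
          ((Exceptional (KubertMember T) κ c₀ X).ncard : ℝ) ≤
            C * (X : ℝ) ^ (12 / (κ * (weight T : ℝ)) + ε) := by
      intro a1 a2 a3 k w L hF he hV
      obtain ⟨C, -, h⟩ := Pool.Agent.TH498.KB.kub_inv a1 a2 a3 k w L (weight T) hF he (curve T) hV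
        κ c₀ ε hκ hc₀ hε
      refine ⟨C, fun X hX => h X hX _ ?_⟩
      rintro q ⟨W, q1, q2, q3, q4, q5, q6, q7⟩
      exact ⟨W, q1, Pool.Agent.TH498.KB.prim_of_coprime W q2, q3, q4, q5, q6,
        hrad W κ c₀ X hκ hc₀ q5 q6 q7⟩
    cases T
    · exact main _ _ _ _ _ _ Pool.Agent.TH498.KB.fam_z5 rfl (fun t => by
        simp [curve, Pool.Agent.TH498.KB.crv, Pool.Agent.TH498.KB.a1_z5,
          Pool.Agent.TH498.KB.a2_z5, Pool.Agent.TH498.KB.a3_z5])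
    · exact main _ _ _ _ _ _ Pool.Agent.TH498.KB.fam_z6 rfl (fun t => by
        simp [curve, Pool.Agent.TH498.KB.crv, Pool.Agent.TH498.KB.a1_z6,
          Pool.Agent.TH498.KB.a2_z6, Pool.Agent.TH498.KB.a3_z6])
    · exact main _ _ _ _ _ _ Pool.Agent.TH498.KB.fam_z7 rfl (fun t => by
        simp [curve, Pool.Agent.TH498.KB.crv, Pool.Agent.TH498.KB.a1_z7,
          Pool.Agent.TH498.KB.a2_z7, Pool.Agent.TH498.KB.a3_z7])
    · exact main _ _ _ _ _ _ Pool.Agent.TH498.KB.fam_z8 rfl (fun t => by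
        simp [curve, Pool.Agent.TH498.KB.crv, Pool.Agent.TH498.KB.a1_z8,
          Pool.Agent.TH498.KB.a2_z8, Pool.Agent.TH498.KB.a3_z8])
    · exact main _ _ _ _ _ _ Pool.Agent.TH498.KB.fam_z9 rfl (fun t => by
        simp [curve, Pool.Agent.TH498.KB.crv, Pool.Agent.TH498.KB.a1_z9,
          Pool.Agent.TH498.KB.a2_z9, Pool.Agent.TH498.KB.a3_z9])
    · exact main _ _ _ _ _ _ Pool.Agent.TH498.KB.fam_z10 rfl (fun t => by
        simp [curve, Pool.Agent.TH498.KB.crv, Pool.Agent.TH498.KB.a1_z10,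
          Pool.Agent.TH498.KB.a2_z10, Pool.Agent.TH498.KB.a3_z10])
    · exact main _ _ _ _ _ _ Pool.Agent.TH498.KB.fam_z12 rfl (fun t => by
        simp [curve, Pool.Agent.TH498.KB.crv, Pool.Agent.TH498.KB.a1_z12,
          Pool.Agent.TH498.KB.a2_z12, Pool.Agent.TH498.KB.a3_z12])
    · exact main _ _ _ _ _ _ Pool.Agent.TH498.KB.fam_z2x4 rfl (fun t => by
        simp [curve, Pool.Agent.TH498.KB.crv, Pool.Agent.TH498.KB.a1_z2x4,
          Pool.Agent.TH498.KB.a2_z2x4, Pool.Agent.TH498.KB.a3_z2x4])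
    · exact main _ _ _ _ _ _ Pool.Agent.TH498.KB.fam_z2x6 rfl (fun t => by
        simp [curve, Pool.Agent.TH498.KB.crv, Pool.Agent.TH498.KB.a1_z2x6,
          Pool.Agent.TH498.KB.a2_z2x6, Pool.Agent.TH498.KB.a3_z2x6])
    · exact main _ _ _ _ _ _ Pool.Agent.TH498.KB.fam_z2x8 rfl (fun t => by
        simp [curve, Pool.Agent.TH498.KB.crv, Pool.Agent.TH498.KB.a1_z2x8,
          Pool.Agent.TH498.KB.a2_z2x8, Pool.Agent.TH498.KB.a3_z2x8])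

end Pool.Agent.Results.MP_d8bd92_nt.KubertSemistable
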