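import Pool.Agent.TH867.EC.Heights

/-! Semistable elliptic curves over `ℚ` with full rational 2-torsion, counted by their conductor:
`N ^ (2/3 + o(1))` curves, with no condition on the discriminants. -/

set_option autoImplicit false

namespace Pool.Agent.Results.MP_d8bd92_nt.SemistableCountSharp

/-- the product of the distinct primes dividing `Δ(W)` (the conductor if `gcd(c₄, Δ) = 1`) -/
def conductor (W : WeierstrassCurve ℤ) : ℕ := ∏ p ∈ W.Δ.natAbs.primeFactors, p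

/-- all 2-torsion points are rational: `4x³ + b₂x² + 2b₄x + b₆` splits over `ℚ` -/
def FullTwoTorsion (W : WeierstrassCurve ℤ) : Prop :=
  ∃ r₁ r₂ r₃ : ℚ, ∀ x : ℚ,
    4 * x ^ 3 + W.b₂ * x ^ 2 + 2 * W.b₄ * x + W.b₆ = 4 * (x - r₁) * (x - r₂) * (x - r₃)

/-- the invariants `(c₄, c₆)` of the integral Weierstrass curves with `Δ ≠ 0` and `gcd(c₄, Δ) = 1`
(the minimal models of the semistable elliptic curves over `ℚ`) having full rational 2-torsion
and conductor at most `N` -/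
def Curves (N : ℝ) : Set (ℤ × ℤ) :=
  {q | ∃ W : WeierstrassCurve ℤ, W.Δ ≠ 0 ∧ IsCoprime W.c₄ W.Δ ∧ FullTwoTorsion W ∧
    q = (W.c₄, W.c₆) ∧ (conductor W : ℝ) ≤ N}

/-- For every `ε > 0` there is `C` such that for `N ≥ 80` the number of isomorphism classes of
semistable elliptic curves over `ℚ` with full rational 2-torsion and conductor at most `N` (with
no condition on the discriminant) lies between `N ^ (2/3) / 200` and `C N ^ (2/3 + ε)`. -/
theorem result (ε : ℝ) (hε : 0 < ε) : ∃ C : ℝ, 0 < C ∧ ∀ N : ℝ, 80 ≤ N →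
    (Curves N).Finite ∧
    1 / 200 * N ^ ((2 : ℝ) / 3) ≤ ((Curves N).ncard : ℝ) ∧
    ((Curves N).ncard : ℝ) ≤ C * N ^ (2 / 3 + ε) := by
  obtain ⟨C, hC, h⟩ := Pool.Agent.TH867.EC.cur_all ε hε
  refine ⟨C, hC, fun N hN => ?_⟩
  have hU : Curves N = ⋃ H, Pool.Agent.TH867.EC.Cur N H := by
    ext q
    rw [Set.mem_iUnion]
    constructor
    · rintro ⟨W, h1, h2, h3, h4, h5⟩
      exact ⟨_, W, h1, h2, h3, h4, h5, le_rfl⟩
    · rintro ⟨H, W, h1, h2, h3, h4, h5, _⟩
      exact ⟨W, h1, h2, h3, h4, h5⟩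
  obtain ⟨h1, h2⟩ := Pool.Agent.TH867.EC.union_card
    (S := fun H => Pool.Agent.TH867.EC.Cur N H) (B := C * N ^ (2 / 3 + ε))
    (fun H H' hHH q hq => by
      obtain ⟨W, h1, h2, h3, h4, h5, h6⟩ := hq
      exact ⟨W, h1, h2, h3, h4, h5, h6.trans hHH⟩)
    (fun H hH => h N H (by linarith) hH)
  rw [hU]
  refine ⟨h1, ?_, h2⟩
  refine (Pool.Agent.TH867.EC.cur_lower N (2 * Real.log N) hN le_rfl).trans ?_
  have h3 : (Pool.Agent.TH867.EC.Cur N (2 * Real.log N)).ncard ≤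
      (⋃ H, Pool.Agent.TH867.EC.Cur N H).ncard :=
    Set.ncard_le_ncard (Set.subset_iUnion _ _) h1
  exact_mod_cast h3

end Pool.Agent.Results.MP_d8bd92_nt.SemistableCountSharp
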