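import Mathlib
import Pool.Agent.TH871.Sz.Final

namespace Pool.Agent.Results.MP_d8bd92_nt.SzpiroExcess

/-- the product of the distinct primes dividing the discriminant -/
def conductor (W : WeierstrassCurve ℤ) : ℕ := ∏ p ∈ W.Δ.natAbs.primeFactors, p

/-- For every `K ≤ 41.04` and every `X` there is an integral Weierstrass equation with nonzero
discriminant `Δ` coprime to `c₄` and conductor `N > X` such that
`|Δ| > N ^ 6 * exp (K * √(log N) / log (log N))`. -/
theorem result (K : ℝ) (hK : K ≤ 41.04) (X : ℝ) :
    ∃ W : WeierstrassCurve ℤ, W.Δ ≠ 0 ∧ IsCoprime W.c₄ W.Δ ∧ X < conductor W ∧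
      (conductor W : ℝ) ^ 6 *
        Real.exp (K * √(Real.log (conductor W)) / Real.log (Real.log (conductor W))) <
          |(W.Δ : ℝ)| := by
  set K' : ℝ := max K 0 / 6 with hK'
  have hK'0 : 0 ≤ K' := by positivity
  have hK'1 : K' ≤ 171 / 25 := by
    have h0 : K ≤ 1026 / 25 := by norm_num at hK ⊢; linarith
    have : max K 0 ≤ 1026 / 25 := max_le h0 (by norm_num)
    rw [hK']
    linarith
  obtain ⟨W, hΔ, hc, hX, hlt⟩ :=
    Pool.Agent.TH871.Sz.curves hK'0 hK'1 (max X (Real.exp 1))
  have hcond : Pool.Agent.TH871.Sz.cond W = conductor W := rfl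
  rw [hcond] at hX hlt
  have hN0' : 0 < conductor W := Pool.Agent.TH871.Sz.cond_pos W
  have hN0 : (0 : ℝ) < conductor W := by exact_mod_cast hN0'
  have hlogX : X < Real.log (conductor W) := lt_of_le_of_lt (le_max_left _ _) hX
  have hlog1 : Real.exp 1 < Real.log (conductor W) := lt_of_le_of_lt (le_max_right _ _) hX
  have hΔR : 0 < |(W.Δ : ℝ)| := abs_pos.mpr (by exact_mod_cast hΔ)
  refine ⟨W, hΔ, hc, ?_, ?_⟩
  · have := Real.log_le_sub_one_of_pos hN0
    linarith
  · have hll : 0 < Real.log (Real.log (conductor W)) := by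
      apply Real.log_pos
      have : (1 : ℝ) < Real.exp 1 := Real.one_lt_exp_iff.mpr one_pos
      linarith
    have h1 : K * √(Real.log (conductor W)) / Real.log (Real.log (conductor W)) ≤
        6 * (K' * √(Real.log (conductor W)) / Real.log (Real.log (conductor W))) := by
      have h2 : K ≤ 6 * K' := by
        rw [hK']
        have := le_max_left K 0
        linarith
      calc K * √(Real.log (conductor W)) / Real.log (Real.log (conductor W)) ≤
          (6 * K') * √(Real.log (conductor W)) / Real.log (Real.log (conductor W)) := by gcongr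
        _ = _ := by ring
    have h2 : K * √(Real.log (conductor W)) / Real.log (Real.log (conductor W)) <
        Real.log |(W.Δ : ℝ)| - 6 * Real.log (conductor W) := by linarith
    calc (conductor W : ℝ) ^ 6 *
        Real.exp (K * √(Real.log (conductor W)) / Real.log (Real.log (conductor W)))
        < (conductor W : ℝ) ^ 6 * Real.exp (Real.log |(W.Δ : ℝ)| - 6 * Real.log (conductor W)) := by
          gcongr
      _ = |(W.Δ : ℝ)| := by
          rw [Real.exp_sub, Real.exp_log hΔR, show 6 * Real.log (conductor W : ℝ) =
            Real.log ((conductor W : ℝ) ^ 6) by rw [Real.log_pow]; push_cast; ring,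
            Real.exp_log (by positivity)]
          field_simp

end Pool.Agent.Results.MP_d8bd92_nt.SzpiroExcess
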